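import Pool.Agent.TH27.AE.Fin

/-!
# Random permutations and all Schreier graphs with at most `exp (n ^ (1 - δ))` vertices

MP_75608d_al. There is a constant `C` such that the following holds for `0 < δ ≤ 1/2`. Let
`x_1, …, x_k` be independent uniform random elements of `A_n`, `k ≥ C log² (1/δ)`. For large `n`, with
probability at least `1 - C log (1/δ) / n`,

* every finite dimensional unitary representation of `A_n` of dimension at most `exp (n ^ (1 - δ))`
  without nonzero invariant vectors has spectral gap at least `δ ^ C` for `x_1^{±1}, …, x_k^{±1}`;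
* for every transitive action of `A_n` on a set with at most `exp (n ^ (1 - δ))` points (that is, for
  all coset spaces `A_n / H`, where `H` is a subgroup of index at most `exp (n ^ (1 - δ))`), the
  Schreier graph of `x_1^{±1}, …, x_k^{±1}` has spectral gap at least `δ ^ C`.

The walk on tuples is controlled by the rounds of `Pool.Agent.H14R2.LL` (starting library, helper14
and others) with explicit parameters. New here: the number of permutations and the gap in terms of
`δ`, and the step from tuples to all representations of small dimension: if `w` is the largest number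
of disjoint quadruples such that the Klein four groups on them have a common eigenvector on which
each of them acts by a nontrivial character, then `3 ^ w ≤ dim V`, and this eigenvector is fixed by the
pointwise stabiliser of these `4 w` points.
-/

set_option autoImplicit false

namespace Pool.Agent.Results.MP_75608d_al.SchreierGraphs
open Finset Filter
open scoped InnerProductSpace

/-- `A_n` -/
abbrev A (n : ℕ) := alternatingGroup (Fin n)

section
variable {G : Type} [Group G] {k : ℕ}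

/-- the averaging operator `P v = (1/2k) ∑_i (ρ(x_i) v + ρ(x_i⁻¹) v)` -/
noncomputable def avg {W : Type} [NormedAddCommGroup W] [InnerProductSpace ℂ W]
    (ρ : G →* (W ≃ₗᵢ[ℂ] W)) (x : Fin k → G) (v : W) : W :=
  (1 / (2 * k) : ℂ) • ∑ i, (ρ (x i) v + ρ (x i)⁻¹ v)

/-- the unitary representation `ρ` has no nonzero invariant vectors -/
def NoInv {W : Type} [NormedAddCommGroup W] [InnerProductSpace ℂ W]
    (ρ : G →* (W ≃ₗᵢ[ℂ] W)) : Prop :=
  ∀ v : W, (∀ g, ρ g v = v) → v = 0

/-- spectral gap at least `ε` in the unitary representation `ρ`: `⟨P v, v⟩ ≤ (1 - ε) ‖v‖²` -/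
def GapIn {W : Type} [NormedAddCommGroup W] [InnerProductSpace ℂ W]
    (ρ : G →* (W ≃ₗᵢ[ℂ] W)) (ε : ℝ) (x : Fin k → G) : Prop :=
  ∀ v : W, (inner ℂ (avg ρ x v) v).re ≤ (1 - ε) * ‖v‖ ^ 2

/-- the random walk of `x` on the `G`-set `Ω`: `(P f)(ω) = (1/2k) ∑_i (f(x_i ω) + f(x_i⁻¹ ω))` -/
noncomputable def walkOn {Ω : Type} [MulAction G Ω] (x : Fin k → G) (f : Ω → ℝ) (ω : Ω) : ℝ :=
  (∑ i, (f (x i • ω) + f ((x i)⁻¹ • ω))) / (2 * k)

/-- spectral gap at least `ε` of the Schreier graph of `x` on `Ω`: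
`∑_ω f(ω) (P f)(ω) ≤ (1 - ε) ∑_ω f(ω)²` for all real functions `f` with sum zero -/
def GapOn (Ω : Type) [Fintype Ω] [MulAction G Ω] (ε : ℝ) (x : Fin k → G) : Prop :=
  ∀ f : Ω → ℝ, ∑ ω, f ω = 0 → ∑ ω, f ω * walkOn x f ω ≤ (1 - ε) * ∑ ω, f ω ^ 2

end

/-- Every unitary representation of `A_n` of dimension at most `D` without nonzero invariant
vectors has spectral gap at least `ε` for `x`. -/
def RepGap {n k : ℕ} (D ε : ℝ) (x : Fin k → A n) : Prop :=
  ∀ (W : Type) [NormedAddCommGroup W] [InnerProductSpace ℂ W] [FiniteDimensional ℂ W]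
    (ρ : A n →* (W ≃ₗᵢ[ℂ] W)), (Module.finrank ℂ W : ℝ) ≤ D → NoInv ρ → GapIn ρ ε x

/-- For every transitive action of `A_n` on a set `Ω` with at most `D` points the Schreier graph of
`x` on `Ω` has spectral gap at least `ε`. -/
def SchreierGap {n k : ℕ} (D ε : ℝ) (x : Fin k → A n) : Prop :=
  ∀ (Ω : Type) [Fintype Ω] [MulAction (A n) Ω] [MulAction.IsPretransitive (A n) Ω],
    (Fintype.card Ω : ℝ) ≤ D → GapOn Ω ε x

/-- both properties for `D = exp (n ^ (1 - δ))` -/
def Good {n k : ℕ} (δ ε : ℝ) (x : Fin k → A n) : Prop :=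
  RepGap (Real.exp ((n : ℝ) ^ (1 - δ))) ε x ∧ SchreierGap (Real.exp ((n : ℝ) ^ (1 - δ))) ε x

theorem result : ∃ C : ℝ, 0 < C ∧ ∀ δ : ℝ, 0 < δ → δ ≤ 1 / 2 → ∀ᶠ n : ℕ in atTop,
    ∀ k : ℕ, C * Real.log (1 / δ) ^ 2 ≤ k →
      (Nat.card {x : Fin k → A n // ¬ Good δ (δ ^ C) x} : ℝ) ≤
        C * Real.log (1 / δ) / n * (Fintype.card (A n) : ℝ) ^ k := by
  obtain ⟨C, hC, h⟩ := TH27.AE.repEnergy
  refine ⟨C, by linarith, fun δ hδ hδ2 => ?_⟩
  filter_upwards [h δ hδ hδ2] with n hn
  intro k hk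
  have hk1 : 1 ≤ k := by
    have h1 : 0 < Real.log (1 / δ) := by
      apply Real.log_pos
      rw [lt_div_iff₀ hδ]; linarith
    have h2 : (0 : ℝ) < k := lt_of_lt_of_le (by positivity) hk
    exact_mod_cast h2
  have hk0 : (0 : ℝ) < k := by exact_mod_cast hk1
  refine le_trans ?_ (hn k hk)
  have hgood : ∀ x : Fin k → A n,
      TH27.AE.RepEn n x (Real.exp ((n : ℝ) ^ (1 - δ))) (2 * k * δ ^ C) → Good δ (δ ^ C) x := by
    intro x hx
    refine ⟨?_, ?_⟩
    · intro W _ _ _ ρ hdim hinv v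
      have h1 := hx W ρ hdim hinv v
      unfold avg
      rw [TH27.AE.avg_of_en ρ hk1]
      have h2 : δ ^ C * ‖v‖ ^ 2 ≤ RC14.En ρ x v / (2 * k) := by
        rw [le_div_iff₀ (by positivity)]
        calc δ ^ C * ‖v‖ ^ 2 * (2 * k) = 2 * k * δ ^ C * ‖v‖ ^ 2 := by ring
          _ ≤ _ := h1
      linarith
    · intro Ω _ _ _ hD f hf
      have h1 := TH27.AE.act_of_rep hk1 x _ _ hx Ω hD f hf
      have h2 : 2 * (k : ℝ) * δ ^ C / (2 * k) = δ ^ C := by field_simp
      rw [h2] at h1
      exact h1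
  exact_mod_cast Nat.card_le_card_of_injective
    (fun x : {x : Fin k → A n // ¬ Good δ (δ ^ C) x} =>
      (⟨x.1, fun h => x.2 (hgood x.1 h)⟩ : {x : Fin k → A n //
        ¬ TH27.AE.RepEn n x (Real.exp ((n : ℝ) ^ (1 - δ))) (2 * k * δ ^ C)}))
    (fun x z h => Subtype.ext (congrArg (fun w => w.1) h))

end Pool.Agent.Results.MP_75608d_al.SchreierGraphs
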