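import Pool.Agent.Results.MP_75608d_al.GapAllTuples
import Pool.Agent.TH288.SSE

/-!
MP_75608d_al.  A fixed number `k ≥ k₀(δ)` of random even permutations: with probability tending
to `1`, ALL functions on `A_n` satisfy the Poincare inequality up to an error `‖f‖₁² / N`, with
`N = exp (n ^ (1 - δ))`; all subsets of `A_n` with at most `N / 2` elements expand by a fixed
factor; balls grow exponentially up to radius `n ^ (1 - δ)`; and the transition probabilities of the
lazy walk decay exponentially until they reach `1 / N`.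
-/

namespace Pool.Agent.Results.MP_75608d_al.SmallSetExpansion
open RC14 Finset Filter Topology

noncomputable section

/-- one step of the lazy walk: `(f + P f) / 2`, where
`(P f)(g) = (1/2k) ∑_i (f(g x_i) + f(g x_i⁻¹))` -/
def lazyStep {n k : ℕ} (x : Fin k → Alt n) (f : Alt n → ℝ) (g : Alt n) : ℝ :=
  (f g + walk x f g) / 2

/-- the probability that the lazy walk from the identity is at `g` after `t` steps -/
def prob {n k : ℕ} (x : Fin k → Alt n) (t : ℕ) (g : Alt n) : ℝ :=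
  (lazyStep x)^[t] (fun h => if h = 1 then 1 else 0) g

/-- the set of products of at most `t` factors from `{x_i, x_i⁻¹}` -/
def ball {n k : ℕ} (x : Fin k → Alt n) (t : ℕ) : Set (Alt n) :=
  {g | ∃ w : List (Alt n), w.length ≤ t ∧ (∀ y ∈ w, ∃ i, y = x i ∨ y = (x i)⁻¹) ∧ w.prod = g}

/-- the elements `g` of `A_n` with `g⁻¹ κ = b` -/
def fibre {n r : ℕ} (κ b : Tup r n) : Finset (Alt n) :=
  Finset.univ.filter fun g : Alt n => mv (g : Equiv.Perm (Fin n))⁻¹ κ = b

/-- the six properties; `s` is the scale `n ^ (1 - δ)`: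

* for every tuple `κ` of at most `s` distinct points: the Poincare inequality for all `f` on `A_n`,
  with the mean replaced by the sum of the `ℓ²`-norms of `f` on the sets `fibre κ b`;
* the Poincare inequality for all `f` on `A_n` with error `‖f‖₁² / exp s`;
* sets which do not expand are almost transitive: if `κ` is a tuple of `r ≤ s` distinct points, and
  `q` is the proportion of all `r`-tuples of the form `g⁻¹ κ` with `g ∈ A`, then on average over
  the `k` generators at least `ε (1 - q) |A|` elements `g` of `A` have `g x_i` outside `A`;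
* every set `A` with at most `exp s / 2` elements expands: on average over the `k` generators at
  least `(ε / 2) |A|` elements `g` of `A` have `g x_i` outside `A`;
* the ball of radius `t` has at least `(1 + ε / 2) ^ t` elements for all `t ≤ s`;
* the probability that the lazy walk is at `g` at time `2 t` is at most
  `(1 - ε / 2) ^ t + exp (-s)`. -/
def SmallScale (n : ℕ) {k : ℕ} (s ε : ℝ) (x : Fin k → Alt n) : Prop :=
  (∀ r : ℕ, (r : ℝ) ≤ s → ∀ (κ : Tup r n) (f : Alt n → ℝ),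
    ε * (∑ g, f g ^ 2 -
      (∑ b : Tup r n, √(∑ g ∈ fibre κ b, f g ^ 2)) ^ 2 /
        n.descFactorial r) ≤ ∑ g, f g ^ 2 - ∑ g, f g * walk x f g) ∧
  (∀ f : Alt n → ℝ, ε * (∑ g, f g ^ 2 - (∑ g, |f g|) ^ 2 / Real.exp s) ≤
    ∑ g, f g ^ 2 - ∑ g, f g * walk x f g) ∧
  (∀ r : ℕ, (r : ℝ) ≤ s → ∀ (κ : Tup r n) (A : Finset (Alt n)),
    ε * ((1 - #(A.image fun g : Alt n => mv (g : Equiv.Perm (Fin n))⁻¹ κ) / n.descFactorial r) *
      #A) ≤ (∑ i, (#{g ∈ A | g * x i ∉ A} : ℝ)) / k) ∧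
  (∀ A : Finset (Alt n), (#A : ℝ) ≤ Real.exp s / 2 →
    ε / 2 * #A ≤ (∑ i, (#{g ∈ A | g * x i ∉ A} : ℝ)) / k) ∧
  (∀ t : ℕ, (t : ℝ) ≤ s → (1 + ε / 2) ^ t ≤ ((ball x t).ncard : ℝ)) ∧
  ∀ (t : ℕ) (g : Alt n), prob x (2 * t) g ≤ (1 - ε / 2) ^ t + Real.exp (-s)

theorem pow_le_factorial (n : ℕ) : (n : ℝ) ^ n ≤ Real.exp n * n.factorial := by
  have h3 : (n : ℝ) ^ n / n.factorial ≤ Real.exp n :=
    Real.pow_div_factorial_le_exp _ (Nat.cast_nonneg n) n
  rwa [div_le_iff₀ (by exact_mod_cast Nat.factorial_pos n)] at h3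

/-- `n (n - 1) ⋯ (n - r + 1) ≥ (n / e) ^ r` -/
theorem descFactorial_ge (n r : ℕ) (hr : r ≤ n) :
    (n : ℝ) ^ r ≤ Real.exp r * n.descFactorial r := by
  obtain ⟨d, rfl⟩ := Nat.exists_eq_add_of_le hr
  clear hr
  induction d with
  | zero => simpa [Nat.descFactorial_self] using pow_le_factorial r
  | succ d ih =>
    have h1 : ((r + (d + 1) : ℕ) : ℝ) ^ r * (r + d).descFactorial r ≤
        ((r + d : ℕ) : ℝ) ^ r * (r + (d + 1)).descFactorial r := by
      rw [Nat.descFactorial_eq_prod_range, Nat.descFactorial_eq_prod_range]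
      push_cast
      have e1 : ∀ a : ℝ, a ^ r = ∏ _i ∈ Finset.range r, a := by
        intro a; rw [Finset.prod_const, Finset.card_range]
      rw [e1, e1, ← Finset.prod_mul_distrib, ← Finset.prod_mul_distrib]
      refine Finset.prod_le_prod (fun i _ => by positivity) fun i hi => ?_
      have hi' : i < r := Finset.mem_range.1 hi
      have e2 : ((r + d - i : ℕ) : ℝ) = r + d - i := by
        rw [Nat.cast_sub (by omega)]; push_cast; ring
      have e3 : ((r + (d + 1) - i : ℕ) : ℝ) = r + d + 1 - i := by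
        rw [Nat.cast_sub (by omega)]; push_cast; ring
      rw [e2, e3]
      have : (0 : ℝ) ≤ i := Nat.cast_nonneg i
      nlinarith
    have h2 : (0 : ℝ) < (r + d).descFactorial r := by
      exact_mod_cast Nat.descFactorial_pos.2 (by omega)
    refine le_of_mul_le_mul_right ?_ h2
    calc ((r + (d + 1) : ℕ) : ℝ) ^ r * (r + d).descFactorial r
        ≤ ((r + d : ℕ) : ℝ) ^ r * (r + (d + 1)).descFactorial r := h1
      _ ≤ (Real.exp r * (r + d).descFactorial r) * (r + (d + 1)).descFactorial r :=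
          mul_le_mul_of_nonneg_right ih (Nat.cast_nonneg _)
      _ = Real.exp r * (r + (d + 1)).descFactorial r * (r + d).descFactorial r := by ring

/-- the gap for `r`-tuples gives the Poincare inequality for all functions, `r`-tuple form -/
lemma poincare_of_gap {n m k : ℕ} (hk : 1 ≤ k) {ε : ℝ} {x : Fin k → Alt n}
    (h : GapAllTuples.GapUpTo n m ε x) {r : ℕ} (hr : r ≤ m) (hrn : r ≤ n) (κ : Tup r n)
    (f : Alt n → ℝ) :
    ε * (∑ g, f g ^ 2 -
      (∑ b : Tup r n, √(∑ g ∈ fibre κ b, f g ^ 2)) ^ 2 /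
        n.descFactorial r) ≤ ∑ g, f g ^ 2 - ∑ g, f g * walk x f g := by
  have : Nonempty (Tup r n) := ⟨Fin.castLEEmb hrn⟩
  have h0 := TH288.SSE.weak_poincare (Y := Tup r n) hk x
    (fun g : Alt n => mv (g : Equiv.Perm (Fin n))⁻¹ κ)
    (fun i => mvE (x i : Equiv.Perm (Fin n))⁻¹) (by
      intro i g
      change mv ((g * x i : Alt n) : Equiv.Perm (Fin n))⁻¹ κ =
        mv (x i : Equiv.Perm (Fin n))⁻¹ (mv (g : Equiv.Perm (Fin n))⁻¹ κ)
      rw [← mv_mul]; simp) ε (by
      intro F hF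
      refine le_of_eq_of_le ?_ (h.2 r hr F hF)
      refine Finset.sum_congr rfl fun a _ => ?_
      simp only [GapAllTuples.swalk]
      congr 2
      refine Finset.sum_congr rfl fun i _ => ?_
      rw [add_comm]
      rfl) f
  have hcard : Fintype.card (Tup r n) = n.descFactorial r := by
    rw [Fintype.card_embedding_eq, Fintype.card_fin, Fintype.card_fin]
  rw [hcard] at h0
  exact h0

lemma image_of_gap {n m k : ℕ} (hk : 1 ≤ k) {ε : ℝ} {x : Fin k → Alt n}
    (h : GapAllTuples.GapUpTo n m ε x) (hε : 0 ≤ ε) {r : ℕ} (hr : r ≤ m) (hrn : r ≤ n)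
    (κ : Tup r n) (A : Finset (Alt n)) :
    ε * ((1 - #(A.image fun g : Alt n => mv (g : Equiv.Perm (Fin n))⁻¹ κ) / n.descFactorial r) *
      #A) ≤ (∑ i, (#{g ∈ A | g * x i ∉ A} : ℝ)) / k := by
  have : Nonempty (Tup r n) := ⟨κ⟩
  have hN : (0 : ℝ) < n.descFactorial r := by exact_mod_cast Nat.descFactorial_pos.2 hrn
  have H : ∀ f : Alt n → ℝ, ε * (∑ g, f g ^ 2 - (∑ b : Tup r n,
      TH288.SSE.fib (fun g : Alt n => mv (g : Equiv.Perm (Fin n))⁻¹ κ) f b) ^ 2 /
        n.descFactorial r) ≤ ∑ g, f g ^ 2 - ∑ g, f g * walk x f g := by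
    intro f
    simp only [TH288.SSE.fib]
    exact poincare_of_gap hk h hr hrn κ f
  exact TH288.SSE.expand_image hk x (fun g : Alt n => mv (g : Equiv.Perm (Fin n))⁻¹ κ) ε hε
      (n.descFactorial r) hN H A

lemma exp_le_descFactorial {n : ℕ} {s : ℝ} (hs : 1 ≤ s) (hsn : s ≤ n) (hn : 21 ≤ n) :
    Real.exp s ≤ n.descFactorial ⌊s⌋₊ ∧
      ∀ ε : ℝ, 0 ≤ ε → ε ≤ 1 → ∀ t : ℕ, t ≤ ⌊s⌋₊ →
        2 * (1 + ε / 2) ^ t ≤ (n.descFactorial ⌊s⌋₊ : ℝ) := by
  set m := ⌊s⌋₊ with hm
  have h1 : 1 ≤ m := Nat.one_le_floor_iff _ |>.2 hs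
  have hmn : m ≤ n := by
    have : (m : ℝ) ≤ s := Nat.floor_le (by linarith)
    exact_mod_cast this.trans hsn
  have h2 : s ≤ 2 * m := by
    have : s < m + 1 := Nat.lt_floor_add_one s
    have : (1 : ℝ) ≤ m := by exact_mod_cast h1
    linarith
  have h3 : Real.exp (2 * m) ≤ n.descFactorial m := by
    have h4 := descFactorial_ge n m hmn
    have h5 : Real.exp (3 * m) ≤ (n : ℝ) ^ m := by
      rw [mul_comm, Real.exp_nat_mul]
      refine pow_le_pow_left₀ (Real.exp_pos _).le ?_ m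
      have h6 : Real.exp 3 ≤ 21 := by
        have h7 := Real.exp_one_lt_d9
        have h8 : Real.exp 3 = Real.exp 1 ^ 3 := by rw [← Real.exp_nat_mul]; norm_num
        rw [h8]
        have h9 : (0 : ℝ) < Real.exp 1 := Real.exp_pos 1
        calc Real.exp 1 ^ 3 ≤ (2.7182818286 : ℝ) ^ 3 := by gcongr
          _ ≤ 21 := by norm_num
      exact h6.trans (by exact_mod_cast hn)
    have h10 : Real.exp (3 * m) = Real.exp m * Real.exp (2 * m) := by
      rw [← Real.exp_add]; ring_nf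
    have h11 := h5.trans h4
    rw [h10] at h11
    exact le_of_mul_le_mul_left h11 (Real.exp_pos _)
  refine ⟨(Real.exp_le_exp.2 h2).trans h3, fun ε h0 hε1 t ht => ?_⟩
  have h12 : (1 + ε / 2) ^ t ≤ (3 / 2 : ℝ) ^ m :=
    calc (1 + ε / 2) ^ t ≤ (3 / 2 : ℝ) ^ t := pow_le_pow_left₀ (by linarith) (by linarith) t
      _ ≤ (3 / 2 : ℝ) ^ m := pow_le_pow_right₀ (by norm_num) ht
  have h13 : 2 * (3 / 2 : ℝ) ^ m ≤ Real.exp (2 * m) := by
    have h14 : Real.exp (2 * m) = Real.exp 1 ^ m * Real.exp 1 ^ m := by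
      rw [← Real.exp_nat_mul, mul_one, ← Real.exp_add]; ring_nf
    have h15 : (2 : ℝ) < Real.exp 1 := by have := Real.exp_one_gt_d9; linarith
    have h16 : (2 : ℝ) ≤ Real.exp 1 ^ m :=
      calc (2 : ℝ) = 2 ^ 1 := by norm_num
        _ ≤ 2 ^ m := pow_le_pow_right₀ (by norm_num) h1
        _ ≤ Real.exp 1 ^ m := pow_le_pow_left₀ (by norm_num) h15.le m
    have h17 : (3 / 2 : ℝ) ^ m ≤ Real.exp 1 ^ m :=
      pow_le_pow_left₀ (by norm_num) (by linarith) m
    rw [h14]
    exact mul_le_mul h16 h17 (by positivity) (by positivity)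
  linarith

lemma smallScale_of_gap {n k : ℕ} (hk : 1 ≤ k) (hn : 21 ≤ n) {s ε : ℝ} (hs : 1 ≤ s)
    (hsn : s ≤ n) (hε : 0 < ε) (hε1 : ε ≤ 1) {x : Fin k → Alt n}
    (h : GapAllTuples.GapUpTo n ⌊s⌋₊ ε x) : SmallScale n s ε x := by
  have hmn : ⌊s⌋₊ ≤ n := by
    have : ((⌊s⌋₊ : ℕ) : ℝ) ≤ s := Nat.floor_le (by linarith)
    exact_mod_cast this.trans hsn
  obtain ⟨hN, hN2⟩ := exp_le_descFactorial hs hsn hn
  set N : ℝ := (n.descFactorial ⌊s⌋₊ : ℝ) with hNdef
  have hexp : 0 < Real.exp s := Real.exp_pos s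
  have hNpos : 0 < N := hexp.trans_le hN
  have hP : ∀ f : Alt n → ℝ, ε * (∑ g, f g ^ 2 - (∑ g, |f g|) ^ 2 / N) ≤
      ∑ g, f g ^ 2 - ∑ g, f g * walk x f g := by
    intro f
    refine le_trans ?_ (poincare_of_gap hk h le_rfl hmn (Fin.castLEEmb hmn) f)
    refine mul_le_mul_of_nonneg_left ?_ hε.le
    refine sub_le_sub_left ?_ _
    refine div_le_div_of_nonneg_right ?_ hNpos.le
    refine pow_le_pow_left₀ (Finset.sum_nonneg fun _ _ => Real.sqrt_nonneg _) ?_ 2
    exact TH288.SSE.sum_fib_le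
      (fun g : Alt n => mv (g : Equiv.Perm (Fin n))⁻¹ (Fin.castLEEmb hmn)) f
  have hP' : ∀ f : Alt n → ℝ, ε * (∑ g, f g ^ 2 - (∑ g, |f g|) ^ 2 / Real.exp s) ≤
      ∑ g, f g ^ 2 - ∑ g, f g * walk x f g := by
    intro f
    refine le_trans ?_ (hP f)
    refine mul_le_mul_of_nonneg_left ?_ hε.le
    refine sub_le_sub_left ?_ _
    exact div_le_div_of_nonneg_left (sq_nonneg _) hexp hN
  refine ⟨fun r hr κ f => ?_, hP', fun r hr κ A => ?_, fun A hA => ?_, fun t ht => ?_,
    fun t g => ?_⟩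
  · have hr' : r ≤ ⌊s⌋₊ := Nat.le_floor hr
    exact poincare_of_gap hk h hr' (hr'.trans hmn) κ f
  · have hr' : r ≤ ⌊s⌋₊ := Nat.le_floor hr
    exact image_of_gap hk h hε.le hr' (hr'.trans hmn) κ A
  · refine TH288.SSE.expand_of hk x ε hε.le (Real.exp s) hexp hP' A (by linarith)
  · exact TH288.SSE.ball_growth hk x ε hε.le N
      (fun A hA => TH288.SSE.expand_of hk x ε hε.le N hNpos hP A hA) t
      (hN2 ε hε.le hε1 t (Nat.le_floor ht))
  · have h1 := TH288.SSE.heat_sup hk x ε (by linarith) (Real.exp s) hexp hP' 1 g t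
    rw [one_div, ← Real.exp_neg] at h1
    refine le_of_eq_of_le ?_ h1
    have e1 : (fun h : Alt n => if h = 1 then (1 : ℝ) else 0) = Pi.single 1 1 := by
      funext h; simp [Pi.single_apply]
    simp only [prob]
    rw [e1]
    rfl

theorem result (δ : ℝ) (hδ : 0 < δ) (hδ1 : δ < 1) : ∃ k₀ : ℕ, ∀ k ≥ k₀, ∃ ε : ℝ, 0 < ε ∧
    Tendsto (fun n : ℕ =>
      (Nat.card {x : Fin k → Alt n // SmallScale n ((n : ℝ) ^ (1 - δ)) ε x} : ℝ) /
        (Fintype.card (Alt n) : ℝ) ^ k) atTop (𝓝 1) := by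
  obtain ⟨k₀, hk₀⟩ := GapAllTuples.result δ hδ
  refine ⟨k₀ + 1, fun k hk => ?_⟩
  obtain ⟨ε, hε, hlim⟩ := hk₀ k (by omega)
  refine ⟨min ε 1, lt_min hε one_pos, ?_⟩
  have hpos : ∀ n : ℕ, (0 : ℝ) < (Fintype.card (Alt n) : ℝ) := fun n => by
    exact_mod_cast Fintype.card_pos
  refine tendsto_of_tendsto_of_tendsto_of_le_of_le' hlim tendsto_const_nhds ?_ ?_
  · filter_upwards [eventually_ge_atTop 21] with n hn
    refine div_le_div_of_nonneg_right ?_ (pow_pos (hpos n) k).le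
    have hn1 : (1 : ℝ) ≤ n := by exact_mod_cast (by omega : 1 ≤ n)
    have hs : (1 : ℝ) ≤ (n : ℝ) ^ (1 - δ) := Real.one_le_rpow hn1 (by linarith)
    have hsn : (n : ℝ) ^ (1 - δ) ≤ n :=
      calc (n : ℝ) ^ (1 - δ) ≤ (n : ℝ) ^ (1 : ℝ) :=
            Real.rpow_le_rpow_of_exponent_le hn1 (by linarith)
        _ = n := Real.rpow_one _
    exact_mod_cast RC14.card_mono (fun x : Fin k → Alt n =>
      GapAllTuples.GapUpTo n ⌊(n : ℝ) ^ (1 - δ)⌋₊ ε x)
      (fun x => SmallScale n ((n : ℝ) ^ (1 - δ)) (min ε 1) x)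
      (fun x hx => by
        refine smallScale_of_gap (by omega) hn hs hsn (lt_min hε one_pos) (min_le_right _ _) ?_
        refine ⟨fun f hf h0 => (hx.1 f hf h0).trans ?_, fun r hr f h0 => (hx.2 r hr f h0).trans ?_⟩
        · exact mul_le_mul_of_nonneg_right (by linarith [min_le_left ε 1])
            (Finset.sum_nonneg fun _ _ => sq_nonneg _)
        · exact mul_le_mul_of_nonneg_right (by linarith [min_le_left ε 1])
            (Finset.sum_nonneg fun _ _ => sq_nonneg _))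
  · refine Eventually.of_forall fun n => ?_
    rw [div_le_one (pow_pos (hpos n) k)]
    have h1 : Nat.card {x : Fin k → Alt n // SmallScale n ((n : ℝ) ^ (1 - δ)) (min ε 1) x} ≤
        Nat.card (Fin k → Alt n) := Nat.card_le_card_of_injective _ Subtype.val_injective
    rw [Nat.card_eq_fintype_card (α := Fin k → Alt n), Fintype.card_fun, Fintype.card_fin] at h1
    exact_mod_cast h1

end

end Pool.Agent.Results.MP_75608d_al.SmallSetExpansion
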